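import Pool.Agent.R470.DC2System

/-!
# Distributional chaos of type 2½ without DC2 pairs on a dendrite

There are a dendrite `X` and a continuous map `f : X → X` which has an uncountable DC2½ set but no
DC2 pair at all.  So both questions of the problem have a negative answer (`questions`).
-/

open Filter Topology

namespace Pool.Agent.Results.MP_fd67f7_an.NoDC2Pair

/-- A dendrite: a compact connected metric space that is locally connected and contains no subset
homeomorphic to a circle. -/
def IsDendrite (X : Type) [MetricSpace X] : Prop :=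
  CompactSpace X ∧ ConnectedSpace X ∧ LocallyConnectedSpace X ∧ ∀ C : Set X, IsEmpty (C ≃ₜ Circle)

/-- `(1/n) #{0 ≤ k ≤ n : d(f^k x, f^k y) < δ}`. -/
noncomputable def freq {X : Type} [MetricSpace X] (f : X → X) (x y : X) (δ : ℝ) (n : ℕ) : ℝ :=
  (((Finset.range (n + 1)).filter (fun k => dist (f^[k] x) (f^[k] y) < δ)).card : ℝ) / n

/-- The lower distribution function. -/
noncomputable def Phi {X : Type} [MetricSpace X] (f : X → X) (x y : X) (δ : ℝ) : ℝ :=
  liminf (freq f x y δ) atTop

/-- The upper distribution function. -/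
noncomputable def PhiStar {X : Type} [MetricSpace X] (f : X → X) (x y : X) (δ : ℝ) : ℝ :=
  limsup (freq f x y δ) atTop

/-- `(x, y)` is a DC2 pair of `f`. -/
def IsDC2Pair {X : Type} [MetricSpace X] (f : X → X) (x y : X) : Prop :=
  x ≠ y ∧ (∀ δ, 0 < δ → δ ≤ Metric.diam (Set.univ : Set X) → PhiStar f x y δ = 1) ∧
    ∃ ε, 0 < ε ∧ ε ≤ Metric.diam (Set.univ : Set X) ∧ Phi f x y ε < 1

/-- `(x, y)` is a DC2½ pair of `f`: the limits `a = Phi(0)` and `b = PhiStar(0)` of `Phi(δ)` and
`PhiStar(δ)` as `δ` decreases to `0` satisfy `a < b`. -/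
def IsDC2HalfPair {X : Type} [MetricSpace X] (f : X → X) (x y : X) : Prop :=
  x ≠ y ∧ ∃ a b : ℝ, Tendsto (Phi f x y) (𝓝[>] 0) (𝓝 a) ∧
    Tendsto (PhiStar f x y) (𝓝[>] 0) (𝓝 b) ∧ a < b

/-- A DC2 set. -/
def IsDC2Set {X : Type} [MetricSpace X] (f : X → X) (S : Set X) : Prop :=
  ∀ x ∈ S, ∀ y ∈ S, x ≠ y → IsDC2Pair f x y

/-- A DC2½ set. -/
def IsDC2HalfSet {X : Type} [MetricSpace X] (f : X → X) (S : Set X) : Prop :=
  ∀ x ∈ S, ∀ y ∈ S, x ≠ y → IsDC2HalfPair f x y

/-- Question 1 of the problem: on dendrites, a DC2½ pair implies a DC2 pair. -/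
def Question1 : Prop := ∀ (X : Type) [MetricSpace X], IsDendrite X → ∀ f : X → X, Continuous f →
  (∃ x y, IsDC2HalfPair f x y) → ∃ x y, IsDC2Pair f x y

/-- Question 2 of the problem: on dendrites, an uncountable DC2½ set implies an uncountable
DC2 set. -/
def Question2 : Prop := ∀ (X : Type) [MetricSpace X], IsDendrite X → ∀ f : X → X, Continuous f →
  (∃ S : Set X, ¬ S.Countable ∧ IsDC2HalfSet f S) → ∃ S : Set X, ¬ S.Countable ∧ IsDC2Set f S

section Proof

open Pool.Agent.R470.Dendrite Pool.Agent.R470.DC2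

attribute [local instance] PiNat.metricSpace

/-- the dendrite map -/
noncomputable abbrev F : Dend X → Dend X := ext T

theorem freq_E (x y : X) (δ : ℝ) : freq F (E x) (E y) δ = u (close x y δ) := by
  funext n
  unfold freq u
  congr 2
  congr 1
  apply Finset.filter_congr
  intro k _
  rw [dist_iter_E dist_le_one dist_T]
  rfl

theorem one_le_diam : 1 ≤ Metric.diam (Set.univ : Set (Dend X)) := by
  have hd : dist (P (pt fun _ => true) 0) (P (pt fun _ => true) 1) = 1 := by
    rw [dist_P le_rfl zero_le_one zero_le_one le_rfl, dist_self]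
    norm_num
  have hc : CompactSpace (Dend X) := compactSpace_dend
  rw [← hd]
  exact Metric.dist_le_diam_of_mem isCompact_univ.isBounded trivial trivial

theorem noDC2 (p q : Dend X) : ¬ IsDC2Pair F p q := by
  rintro ⟨-, hsup, ε, hε, -, hinf⟩
  rcases pair_cases dist_le_one dist_T p q with ⟨x, y, rfl, rfl⟩ | h | h
  · obtain ⟨α, s, hx⟩ := exists_code x
    obtain ⟨β, s', hy⟩ := exists_code y
    by_cases hab : α = β
    · subst hab
      have := same_code hx hy hε
      unfold Phi at hinf
      rw [freq_E] at hinf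
      linarith
    · have h1 := diff_code hx hy hab (δ := 1) (by norm_num)
      have h2 := hsup 1 one_pos one_le_diam
      unfold PhiStar at h2
      rw [freq_E] at h2
      linarith
  · have h2 := hsup 1 one_pos one_le_diam
    have h1 : limsup (u (fun k => dist (F^[k] p) (F^[k] q) < 1)) atTop < 1 := by
      obtain ⟨N, hN⟩ := eventually_atTop.1 h
      refine limsup_lt_one _ (g := 1) ?_
      filter_upwards [eventually_ge_atTop (2 * N)] with n hn
      have hsub : Finset.Ico N (n + 1) ⊆
          (Finset.range (n + 1)).filter (fun k => ¬ dist (F^[k] p) (F^[k] q) < 1) := by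
        intro k hk
        rw [Finset.mem_Ico] at hk
        rw [Finset.mem_filter, Finset.mem_range, hN k hk.1]
        exact ⟨hk.2, lt_irrefl _⟩
      have := Finset.card_le_card hsub
      rw [Nat.card_Ico] at this
      omega
    have h3 : freq F p q 1 = u (fun k => dist (F^[k] p) (F^[k] q) < 1) := rfl
    unfold PhiStar at h2
    rw [h3] at h2
    linarith
  · have h1 : 1 ≤ liminf (u (fun k => dist (F^[k] p) (F^[k] q) < ε)) atTop := by
      obtain ⟨N, hN⟩ := eventually_atTop.1 h
      refine one_le_liminf _ (C := N) (c := 0) fun n => ?_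
      have hsub : (Finset.range (n + 1)).filter (fun k => ¬ dist (F^[k] p) (F^[k] q) < ε) ⊆
          Finset.range N := by
        intro k hk
        rw [Finset.mem_filter] at hk
        rw [Finset.mem_range]
        by_contra hcon
        exact hk.2 (by rw [hN k (not_lt.1 hcon)]; exact hε)
      have := Finset.card_le_card hsub
      rw [Finset.card_range] at this
      omega
    have h3 : freq F p q ε = u (fun k => dist (F^[k] p) (F^[k] q) < ε) := rfl
    unfold Phi at hinf
    rw [h3] at hinf
    linarith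

theorem freq_mono {X : Type} [MetricSpace X] (f : X → X) (x y : X) {δ δ' : ℝ} (h : δ ≤ δ')
    (n : ℕ) : freq f x y δ n ≤ freq f x y δ' n := by
  unfold freq
  apply div_le_div_of_nonneg_right _ (Nat.cast_nonneg n)
  have : (Finset.range (n + 1)).filter (fun k => dist (f^[k] x) (f^[k] y) < δ) ⊆
      (Finset.range (n + 1)).filter (fun k => dist (f^[k] x) (f^[k] y) < δ') := by
    intro k hk
    rw [Finset.mem_filter] at hk ⊢
    exact ⟨hk.1, lt_of_lt_of_le hk.2 h⟩
  exact_mod_cast Finset.card_le_card this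

theorem phi_mono {X : Type} [MetricSpace X] (f : X → X) (x y : X) : Monotone (Phi f x y) := by
  intro δ δ' h
  have hu : ∀ δ, freq f x y δ = u (fun k => dist (f^[k] x) (f^[k] y) < δ) := fun _ => rfl
  unfold Phi
  exact liminf_le_liminf (Eventually.of_forall fun n => freq_mono f x y h n)
    (by rw [hu]; exact bddBelow_u _) (by rw [hu]; exact (bddAbove_u _).isCoboundedUnder_ge)

theorem phiStar_mono {X : Type} [MetricSpace X] (f : X → X) (x y : X) :
    Monotone (PhiStar f x y) := by
  intro δ δ' h
  have hu : ∀ δ, freq f x y δ = u (fun k => dist (f^[k] x) (f^[k] y) < δ) := fun _ => rfl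
  unfold PhiStar
  exact limsup_le_limsup (Eventually.of_forall fun n => freq_mono f x y h n)
    (by rw [hu]; exact (bddBelow_u _).isCoboundedUnder_le) (by rw [hu]; exact bddAbove_u _)

theorem dc2half {α β : ℕ → Bool} (h0 : α 0 = β 0) (hab : α ≠ β) :
    IsDC2HalfPair F (E (pt α)) (E (pt β)) := by
  have hlow : ∀ δ : ℝ, δ ≤ 2 → Phi F (E (pt α)) (E (pt β)) δ ≤ 3 / 4 := by
    intro δ hδ
    unfold Phi
    rw [freq_E]
    exact dens_low hab hδ
  have hgap : ∀ δ : ℝ, 0 < δ → (1 + Phi F (E (pt α)) (E (pt β)) δ) / 2 ≤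
      PhiStar F (E (pt α)) (E (pt β)) δ := by
    intro δ hδ
    unfold Phi PhiStar
    rw [freq_E]
    exact dens_gap h0 hδ
  refine ⟨?_, _, _, (phi_mono _ _ _).tendsto_nhdsGT 0, (phiStar_mono _ _ _).tendsto_nhdsGT 0, ?_⟩
  · intro he
    have h1 := hlow 1 (by norm_num)
    rw [he] at h1
    have h2 : 1 ≤ Phi F (E (pt β)) (E (pt β)) 1 := by
      unfold Phi
      rw [freq_E]
      obtain ⟨γ, s, hx⟩ := exists_code (pt β)
      exact same_code hx hx one_pos
    linarith
  · have hA := (phi_mono F (E (pt α)) (E (pt β))).tendsto_nhdsGT 0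
    have hB := (phiStar_mono F (E (pt α)) (E (pt β))).tendsto_nhdsGT 0
    have e1 : sInf (Phi F (E (pt α)) (E (pt β)) '' Set.Ioi 0) ≤ 3 / 4 := by
      refine le_of_tendsto hA ?_
      have : ∀ᶠ δ : ℝ in 𝓝[>] 0, δ < 2 :=
        (eventually_lt_nhds (by norm_num : (0:ℝ) < 2)).filter_mono nhdsWithin_le_nhds
      filter_upwards [this] with δ hδ
      exact hlow δ hδ.le
    have e2 : (1 + sInf (Phi F (E (pt α)) (E (pt β)) '' Set.Ioi 0)) / 2 ≤
        sInf (PhiStar F (E (pt α)) (E (pt β)) '' Set.Ioi 0) := by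
      refine le_of_tendsto_of_tendsto ((hA.const_add 1).div_const 2) hB ?_
      filter_upwards [self_mem_nhdsWithin] with δ hδ
      exact hgap δ hδ
    linarith

/-- The codes in the uncountable family. -/
noncomputable def par (s : Set ℕ) (j : ℕ) : Bool := by
  classical exact if j = 0 then false else decide (j - 1 ∈ s)

theorem par_zero (s : Set ℕ) : par s 0 = false := by simp [par]

theorem par_ne {s t : Set ℕ} (h : s ≠ t) : par s ≠ par t := by
  classical
  intro he
  apply h
  ext v
  have := congrFun he (v + 1)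
  simpa [par] using this

theorem example_holds : ∃ (X : Type) (_ : MetricSpace X) (f : X → X), IsDendrite X ∧ Continuous f ∧
    (∃ S : Set X, ¬ S.Countable ∧ IsDC2HalfSet f S) ∧ ∀ x y, ¬ IsDC2Pair f x y := by
  have hdend := isDendrite (X := X) dist_le_one
  refine ⟨Dend X, inferInstance, F, ⟨hdend.compact, hdend.connected, hdend.locallyConnected,
    hdend.noCircle⟩, continuous_ext dist_le_one dist_T,
    ⟨Set.range (fun s : Set ℕ => E (pt (par s))), ?_, ?_⟩, noDC2⟩
  · intro hcount
    have hinj : Function.Injective (fun s : Set ℕ => E (pt (par s))) := by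
      intro s t hst
      by_contra hne
      exact (dc2half ((par_zero s).trans (par_zero t).symm) (par_ne hne)).1 hst
    have h2 : Countable (Set ℕ) := by
      have := hcount.to_subtype
      exact (Equiv.ofInjective _ hinj).countable_iff.2 this
    exact not_countable_iff.2 uncountable_set_nat h2
  · rintro _ ⟨s, rfl⟩ _ ⟨t, rfl⟩ hne
    have hst : s ≠ t := fun h => hne (by rw [h])
    exact dc2half ((par_zero s).trans (par_zero t).symm) (par_ne hst)

end Proof

/-- There are a dendrite `X` and a continuous map `f : X → X` such that `f` has an uncountable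
DC2½ set but no DC2 pair. -/
theorem result : ∃ (X : Type) (_ : MetricSpace X) (f : X → X), IsDendrite X ∧ Continuous f ∧
    (∃ S : Set X, ¬ S.Countable ∧ IsDC2HalfSet f S) ∧ ∀ x y, ¬ IsDC2Pair f x y :=
  example_holds

/-- Both questions have a negative answer. -/
theorem questions : ¬ Question1 ∧ ¬ Question2 := by
  constructor
  · intro hQ
    obtain ⟨X, inst, f, hX, hf, ⟨S, hS, hdc⟩, hno⟩ := example_holds
    have hnt : S.Nontrivial := by
      rw [← Set.not_subsingleton_iff]
      exact fun h => hS h.countable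
    obtain ⟨x, hx, y, hy, hxy⟩ := hnt
    obtain ⟨x', y', h⟩ := hQ X hX f hf ⟨x, y, hdc x hx y hy hxy⟩
    exact hno x' y' h
  · intro hQ
    obtain ⟨X, inst, f, hX, hf, ⟨S, hS, hdc⟩, hno⟩ := example_holds
    obtain ⟨S', hS', h⟩ := hQ X hX f hf ⟨S, hS, hdc⟩
    have hnt : S'.Nontrivial := by
      rw [← Set.not_subsingleton_iff]
      exact fun h => hS' h.countable
    obtain ⟨x, hx, y, hy, hxy⟩ := hnt
    exact hno x y (h x hx y hy hxy)

end Pool.Agent.Results.MP_fd67f7_an.NoDC2Pair
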